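import Pool.Agent.H68.L.R_seed8.Y699.E.Cheb

/-!
Mean values of multiplicative functions.
-/

set_option autoImplicit false

open Finset

namespace Pool.Agent.Y699.E

open Pool.Agent.Y692.QS (Ei w nr)
open Pool.Agent.Y715.T.RecG (Pq)
open scoped ComplexConjugate

/-- the multiplicative function with given values at primes -/
noncomputable def mf (g : Ei → ℝ) (n : Ei) : ℝ := ∏ π ∈ PD n, g π

lemma mf_nonneg {g : Ei → ℝ} (h0 : ∀ π, 0 ≤ g π) (n : Ei) : 0 ≤ mf g n := prod_nonneg fun _ _ => h0 _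

lemma mf_le_one {g : Ei → ℝ} (h0 : ∀ π, 0 ≤ g π) (h1 : ∀ π, g π ≤ 1) (n : Ei) : mf g n ≤ 1 :=
  prod_le_one (fun _ _ => h0 _) (fun _ _ => h1 _)

/-- `f(n) log T` on average -/
theorem hall1 {g : Ei → ℝ} (h0 : ∀ π, 0 ≤ g π) (h1 : ∀ π, g π ≤ 1) {T : ℕ} (hT : 1 ≤ T) :
    (∑ n ∈ SB T, mf g n) * Real.log T ≤ 7 * T * ∑ n ∈ SB T, mf g n / nrm n := by
  classical
  have T0 : (0 : ℝ) < T := by exact_mod_cast hT
  have e1 : (∑ n ∈ SB T, mf g n) * Real.log T ≤
      ∑ n ∈ SB T, mf g n * Real.log (nrm n) + ∑ n ∈ SB T, mf g n * (T / nrm n) := by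
    rw [sum_mul, ← sum_add_distrib]
    refine sum_le_sum fun n hn => ?_
    rw [mem_SB] at hn
    have n0 : (0 : ℝ) < nrm n := by exact_mod_cast nrm_pos' hn.2.ne
    have h2 := Real.log_le_sub_one_of_pos (show (0 : ℝ) < T / nrm n by positivity)
    rw [Real.log_div T0.ne' n0.ne'] at h2
    have h3 := mf_nonneg h0 n
    nlinarith
  have e2 : ∑ n ∈ SB T, mf g n * Real.log (nrm n) ≤ 6 * T * ∑ n ∈ SB T, mf g n / nrm n := by
    have e3 : ∑ n ∈ SB T, mf g n * Real.log (nrm n) =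
        ∑ x ∈ (SB T).sigma (fun n => PD n), mf g x.1 * Real.log (nrm x.2) := by
      rw [sum_sigma]
      refine sum_congr rfl fun n hn => ?_
      rw [log_nrm (mem_SB.1 hn).2, mul_sum]
    have e4 : ∑ x ∈ (SB T).sigma (fun n => PD n), mf g x.1 * Real.log (nrm x.2) ≤
        ∑ x ∈ (SB T).sigma (fun m => QB (T / nrm m)), mf g x.1 * Real.log (nrm x.2) := by
      have key : ∀ x ∈ (SB T).sigma (fun n => PD n),
          x.2 * (∏ ρ ∈ (PD x.1).erase x.2, ρ) = x.1 ∧ PS (∏ ρ ∈ (PD x.1).erase x.2, ρ) ∧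
          PD (∏ ρ ∈ (PD x.1).erase x.2, ρ) = (PD x.1).erase x.2 ∧ Pq x.2 := by
        rintro ⟨n, π⟩ hx
        rw [mem_sigma, mem_SB] at hx
        simp only at hx ⊢
        have h2 : ∀ ρ ∈ (PD n).erase π, Pq ρ := fun ρ hρ => ((mem_PD hx.1.2.ne).1 (mem_of_mem_erase hρ)).1
        refine ⟨?_, (PS_prod h2).1, (PS_prod h2).2, ((mem_PD hx.1.2.ne).1 hx.2).1⟩
        rw [mul_prod_erase (PD n) (fun ρ => ρ) hx.2]
        exact hx.1.2.prod
      refine sum_le_inj (fun x => ⟨∏ ρ ∈ (PD x.1).erase x.2, ρ, x.2⟩) ?_ ?_ ?_ ?_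
      · intro x hx
        obtain ⟨k1, k2, -, k4⟩ := key x hx
        rw [mem_sigma, mem_SB] at hx
        rw [mem_sigma, mem_SB, mem_QB]
        simp only
        have h3 : nrm x.2 * nrm (∏ ρ ∈ (PD x.1).erase x.2, ρ) ≤ T := by
          rw [← nrm_mul, k1]
          exact hx.1.1
        have h4 := nrm_pos' (pq_ne k4)
        have h5 := nrm_pos' k2.ne
        refine ⟨⟨?_, k2⟩, ?_, k4⟩
        · exact (Nat.le_mul_of_pos_left _ h4).trans h3
        · rw [Nat.le_div_iff_mul_le h5]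
          exact h3
      · rintro ⟨a, π⟩ ha ⟨b, ρ⟩ hb hab
        obtain ⟨k1, -⟩ := key _ ha
        obtain ⟨l1, -⟩ := key _ hb
        simp only [Sigma.mk.injEq, heq_eq_eq] at hab k1 l1
        obtain ⟨h2, rfl⟩ := hab
        rw [h2] at k1
        rw [k1] at l1
        rw [l1]
      · rintro ⟨n, π⟩ hx
        obtain ⟨k1, k2, k3, k4⟩ := key _ hx
        simp only at k1 k2 k3 k4 ⊢
        rw [mem_sigma] at hx
        apply mul_le_mul_of_nonneg_right _ (Real.log_natCast_nonneg _)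
        unfold mf
        rw [k3, ← mul_prod_erase (PD n) g hx.2]
        exact mul_le_of_le_one_left (prod_nonneg fun _ _ => h0 _) (h1 _)
      · intro x _
        exact mul_nonneg (mf_nonneg h0 _) (Real.log_natCast_nonneg _)
    rw [e3]
    refine e4.trans ?_
    rw [sum_sigma, mul_sum]
    refine sum_le_sum fun m hm => ?_
    show ∑ s ∈ QB (T / nrm m), mf g m * Real.log (nrm s) ≤ _
    rw [← mul_sum]
    have h2 := theta_le (T / nrm m)
    have h3 : ((T / nrm m : ℕ) : ℝ) ≤ (T : ℝ) / nrm m := Nat.cast_div_le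
    calc mf g m * ∑ π ∈ QB (T / nrm m), Real.log (nrm π) ≤ mf g m * (6 * ((T : ℝ) / nrm m)) := by
          apply mul_le_mul_of_nonneg_left _ (mf_nonneg h0 _)
          linarith
      _ = 6 * T * (mf g m / nrm m) := by ring
  have e3 : ∑ n ∈ SB T, mf g n * (T / nrm n) = T * ∑ n ∈ SB T, mf g n / nrm n := by
    rw [mul_sum]
    refine sum_congr rfl fun n _ => by ring
  rw [e3] at e1
  linarith


lemma mf_mul_le {g : Ei → ℝ} (h0 : ∀ π, 0 ≤ g π) (h1 : ∀ π, g π ≤ 1) {a b : Ei} (ha : a ≠ 0) (hb : b ≠ 0) :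
    mf g a * mf g b ≤ mf g (a * b) := by
  classical
  unfold mf
  rw [PD_mul ha hb, ← prod_union_inter]
  exact mul_le_of_le_one_right (prod_nonneg fun _ _ => h0 _)
    (prod_le_one (fun _ _ => h0 _) (fun _ _ => h1 _))

open Classical in
lemma em_ps {a π : Ei} (ha : PS a) (hπ : Pq π) :
    emultiplicity π a = ((if π ∣ a then 1 else 0 : ℕ) : ℕ∞) := by
  rw [emultiplicity_eq_coe]
  split_ifs with h
  · rw [pow_one]
    refine ⟨h, fun h2 => ?_⟩
    rw [pow_succ, pow_one] at h2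
    exact hπ.prime.not_isUnit (ha.sqf π h2)
  · rw [pow_zero, zero_add, pow_one]
    exact ⟨one_dvd _, h⟩

lemma bool_aux : ∀ a b c a' b' c' : Bool,
    a.toNat + b.toNat + c.toNat = a'.toNat + b'.toNat + c'.toNat →
    ((b.toNat : ZMod 3) + 2 * (c.toNat : ZMod 3) = (b'.toNat : ZMod 3) + 2 * (c'.toNat : ZMod 3)) →
    a = a' ∧ b = b' ∧ c = c' := by decide

open Classical in
/-- the cube of the logarithmic mean -/
theorem hall3 {g : Ei → ℝ} (h0 : ∀ π, 0 ≤ g π) (h1 : ∀ π, g π ≤ 1) (T : ℕ) :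
    (∑ n ∈ SB T, mf g n / nrm n) ^ 3 ≤ ∑ n ∈ PB (T ^ 3), mf (fun π => 3 * g π) n / nrm n := by
  have e1 : (∑ n ∈ SB T, mf g n / nrm n) ^ 3 =
      ∑ x ∈ (SB T) ×ˢ ((SB T) ×ˢ (SB T)),
        (mf g x.1 * (mf g x.2.1 * mf g x.2.2)) / nrm (x.1 * (x.2.1 * x.2.2)) := by
    have e0 : (∑ n ∈ SB T, mf g n / nrm n) ^ 3 = (∑ n ∈ SB T, mf g n / nrm n) *
        ((∑ n ∈ SB T, mf g n / nrm n) * (∑ n ∈ SB T, mf g n / nrm n)) := by ring
    rw [e0, sum_mul_sum, ← sum_product', sum_mul_sum, ← sum_product']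
    refine sum_congr rfl fun x _ => ?_
    rw [nrm_mul, nrm_mul, div_mul_div_comm, div_mul_div_comm]
    push_cast
    rfl
  have hmaps : ∀ x ∈ (SB T) ×ˢ ((SB T) ×ˢ (SB T)), x.1 * (x.2.1 * x.2.2) ∈ PB (T ^ 3) := by
    intro x hx
    rw [mem_product, mem_product, mem_SB, mem_SB, mem_SB] at hx
    rw [mem_PB, nrm_mul, nrm_mul]
    refine ⟨?_, prm_mul hx.1.2.prm (prm_mul hx.2.1.2.prm hx.2.2.2.prm)⟩
    have : T ^ 3 = T * (T * T) := by ring
    rw [this]
    exact Nat.mul_le_mul hx.1.1 (Nat.mul_le_mul hx.2.1.1 hx.2.2.1)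
  rw [e1, ← sum_fiberwise_of_maps_to hmaps]
  refine sum_le_sum fun n hn => ?_
  rw [mem_PB] at hn
  have hn0 := prm_ne_zero hn.2
  have h2 : ∀ x ∈ ((SB T) ×ˢ ((SB T) ×ˢ (SB T))).filter (fun x => x.1 * (x.2.1 * x.2.2) = n),
      (mf g x.1 * (mf g x.2.1 * mf g x.2.2)) / nrm (x.1 * (x.2.1 * x.2.2)) ≤ mf g n / nrm n := by
    intro x hx
    rw [mem_filter, mem_product, mem_product, mem_SB, mem_SB, mem_SB] at hx
    have hxn := hx.2
    apply div_le_div₀ (mf_nonneg h0 _) _ (by exact_mod_cast nrm_pos' hn0) (by rw [hxn])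
    rw [← hxn]
    refine le_trans ?_ (mf_mul_le h0 h1 hx.1.1.2.ne (mul_ne_zero hx.1.2.1.2.ne hx.1.2.2.2.ne))
    exact mul_le_mul_of_nonneg_left (mf_mul_le h0 h1 hx.1.2.1.2.ne hx.1.2.2.2.ne) (mf_nonneg h0 _)
  refine (sum_le_sum h2).trans ?_
  rw [sum_const, nsmul_eq_mul]
  have h3 : (((SB T) ×ˢ ((SB T) ×ˢ (SB T))).filter (fun x => x.1 * (x.2.1 * x.2.2) = n)).card ≤
      3 ^ (PD n).card := by
    have hc : ((PD n).pi (fun _ => (univ : Finset (ZMod 3)))).card = 3 ^ (PD n).card := by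
      rw [card_pi, prod_const, card_univ, ZMod.card]
    rw [← hc]
    refine card_le_card_of_injOn (fun x => fun π _ =>
      (((decide (π ∣ x.2.1)).toNat : ZMod 3) + 2 * ((decide (π ∣ x.2.2)).toNat : ZMod 3))) ?_ ?_
    · intro x _
      rw [mem_coe, mem_pi]
      intro π _
      exact mem_univ _
    · intro x hx y hy hxy
      rw [mem_coe, mem_filter, mem_product, mem_product, mem_SB, mem_SB, mem_SB] at hx hy
      have key : ∀ π, Pq π → (π ∣ x.1 ↔ π ∣ y.1) ∧ (π ∣ x.2.1 ↔ π ∣ y.2.1) ∧ (π ∣ x.2.2 ↔ π ∣ y.2.2) := by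
        intro π hπ
        by_cases hπn : π ∣ n
        · have hπm : π ∈ PD n := (mem_PD hn0).2 ⟨hπ, hπn⟩
          have h4 := congrFun (congrFun hxy π) hπm
          have h5 : emultiplicity π (x.1 * (x.2.1 * x.2.2)) = emultiplicity π (y.1 * (y.2.1 * y.2.2)) := by
            rw [hx.2, hy.2]
          rw [emultiplicity_mul hπ.prime, emultiplicity_mul hπ.prime, emultiplicity_mul hπ.prime,
            emultiplicity_mul hπ.prime, em_ps hx.1.1.2 hπ, em_ps hx.1.2.1.2 hπ, em_ps hx.1.2.2.2 hπ,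
            em_ps hy.1.1.2 hπ, em_ps hy.1.2.1.2 hπ, em_ps hy.1.2.2.2 hπ] at h5
          have e2 : ∀ z : Ei, (if π ∣ z then 1 else 0 : ℕ) = (decide (π ∣ z)).toNat := by
            intro z
            by_cases hz : π ∣ z <;> simp [hz]
          have h6 : (decide (π ∣ x.1)).toNat + (decide (π ∣ x.2.1)).toNat + (decide (π ∣ x.2.2)).toNat =
              (decide (π ∣ y.1)).toNat + (decide (π ∣ y.2.1)).toNat + (decide (π ∣ y.2.2)).toNat := by
            rw [← e2, ← e2, ← e2, ← e2, ← e2, ← e2]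
            have h7 : (((if π ∣ x.1 then 1 else 0) + ((if π ∣ x.2.1 then 1 else 0) +
                (if π ∣ x.2.2 then 1 else 0)) : ℕ) : ℕ∞) = (((if π ∣ y.1 then 1 else 0) +
                ((if π ∣ y.2.1 then 1 else 0) + (if π ∣ y.2.2 then 1 else 0)) : ℕ) : ℕ∞) := by
              push_cast
              push_cast at h5
              exact h5
            have h8 := Nat.cast_injective (R := ℕ∞) h7
            omega
          obtain ⟨a1, a2, a3⟩ := bool_aux _ _ _ _ _ _ h6 h4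
          exact ⟨by simpa using a1, by simpa using a2, by simpa using a3⟩
        · have d1 : ∀ z : Ei, z ∣ n → ¬ π ∣ z := fun z hz h => hπn (h.trans hz)
          have c1 : x.1 ∣ n := by rw [← hx.2]; exact dvd_mul_right _ _
          have c2 : x.2.1 ∣ n := by rw [← hx.2]; exact (dvd_mul_right _ _).mul_left _
          have c3 : x.2.2 ∣ n := by rw [← hx.2]; exact (dvd_mul_left _ _).mul_left _
          have c4 : y.1 ∣ n := by rw [← hy.2]; exact dvd_mul_right _ _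
          have c5 : y.2.1 ∣ n := by rw [← hy.2]; exact (dvd_mul_right _ _).mul_left _
          have c6 : y.2.2 ∣ n := by rw [← hy.2]; exact (dvd_mul_left _ _).mul_left _
          exact ⟨by simp [d1 _ c1, d1 _ c4], by simp [d1 _ c2, d1 _ c5], by simp [d1 _ c3, d1 _ c6]⟩
      have hps : ∀ {u v : Ei}, PS u → PS v → (∀ π, Pq π → (π ∣ u ↔ π ∣ v)) → u = v := by
        intro u v hu hv h
        rw [← hu.prod, ← hv.prod]
        congr 1
        ext π
        rw [mem_PD hu.ne, mem_PD hv.ne]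
        exact ⟨fun h' => ⟨h'.1, (h π h'.1).1 h'.2⟩, fun h' => ⟨h'.1, (h π h'.1).2 h'.2⟩⟩
      refine Prod.ext (hps hx.1.1.2 hy.1.1.2 fun π hπ => (key π hπ).1) (Prod.ext
        (hps hx.1.2.1.2 hy.1.2.1.2 fun π hπ => (key π hπ).2.1)
        (hps hx.1.2.2.2 hy.1.2.2.2 fun π hπ => (key π hπ).2.2))
  have h4 : mf (fun π => 3 * g π) n = 3 ^ (PD n).card * mf g n := by
    unfold mf
    rw [prod_mul_distrib, prod_const]
  rw [h4, mul_div_assoc]
  apply mul_le_mul_of_nonneg_right _ (div_nonneg (mf_nonneg h0 _) (Nat.cast_nonneg _))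
  exact_mod_cast h3

/-- summing the convolution -/
theorem conv_sum {M : Type*} [AddCommMonoid M] (F : Ei → Ei → M) (V : ℕ) :
    ∑ n ∈ PB V, ∑ d ∈ DP n, F n d = ∑ k ∈ PB V, ∑ d ∈ PB (V / nrm k), F (d * k) d := by
  classical
  have e1 : ∑ n ∈ PB V, ∑ d ∈ DP n, F n d = ∑ x ∈ (PB V).sigma (fun n => DP n), F x.1 x.2 := by
    rw [sum_sigma]
  have e2 : ∑ k ∈ PB V, ∑ d ∈ PB (V / nrm k), F (d * k) d =
      ∑ x ∈ (PB V).sigma (fun k => PB (V / nrm k)), F (x.2 * x.1) x.2 := by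
    rw [sum_sigma]
  rw [e1, e2]
  symm
  refine sum_bij (fun x _ => ⟨x.2 * x.1, x.2⟩) ?_ ?_ ?_ ?_
  · rintro ⟨k, d⟩ hx
    rw [mem_sigma, mem_PB, mem_PB] at hx
    simp only at hx ⊢
    have hk0 := prm_ne_zero hx.1.2
    have hd0 := prm_ne_zero hx.2.2
    rw [mem_sigma, mem_PB, mem_DP (mul_ne_zero hd0 hk0)]
    refine ⟨⟨?_, prm_mul hx.2.2 hx.1.2⟩, hx.2.2, dvd_mul_right _ _⟩
    rw [nrm_mul]
    have := hx.2.1
    rwa [Nat.le_div_iff_mul_le (nrm_pos' hk0)] at this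
  · rintro ⟨k, d⟩ hx ⟨k', d'⟩ hy hxy
    rw [mem_sigma, mem_PB, mem_PB] at hx hy
    simp only [Sigma.mk.injEq, heq_eq_eq] at hxy
    obtain ⟨h1, rfl⟩ := hxy
    have h2 := mul_left_cancel₀ (prm_ne_zero hx.2.2) h1
    rw [h2]
  · rintro ⟨n, d⟩ hx
    rw [mem_sigma, mem_PB] at hx
    simp only at hx
    have hn0 := prm_ne_zero hx.1.2
    rw [mem_DP hn0] at hx
    obtain ⟨⟨h1, h2⟩, h3, k, rfl⟩ := hx
    have hk0 : k ≠ 0 := right_ne_zero_of_mul hn0
    have hkp : prm k := prm_cancel h3 h2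
    have hd0 := prm_ne_zero h3
    refine ⟨⟨k, d⟩, ?_, rfl⟩
    rw [mem_sigma, mem_PB, mem_PB]
    simp only
    rw [nrm_mul] at h1
    refine ⟨⟨(Nat.le_mul_of_pos_left _ (nrm_pos' hd0)).trans h1, hkp⟩, ?_, h3⟩
    rw [Nat.le_div_iff_mul_le (nrm_pos' hk0)]
    exact h1
  · intro x _
    rfl

end Pool.Agent.Y699.E
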