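import Pool.Agent.H68.L.R_seed8.Y699.E.Lg

/-!
Bilinear sums of cubic symbols over hyperbolic regions.
-/

set_option autoImplicit false

open Finset

namespace Pool.Agent.Y699.E

open Pool.Agent.Y692.QS (Ei w nr)
open Pool.Agent.Y715.T.RecG (Pq)

/-- the block of a number -/
def blk (K n : ℕ) : ℕ × ℕ := (Nat.log 2 n, K * (n - 2 ^ Nat.log 2 n) / 2 ^ Nat.log 2 n)

/-- the upper bound for the second variable -/
def ub (T K : ℕ) (b : ℕ × ℕ) : ℕ := T * K / (2 ^ b.1 * (K + b.2))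

lemma blk_spec {K n : ℕ} (hK : 1 ≤ K) (hn : n ≠ 0) :
    2 ^ (blk K n).1 ≤ n ∧ n < 2 ^ ((blk K n).1 + 1) ∧ (blk K n).2 < K ∧
    2 ^ (blk K n).1 * (K + (blk K n).2) ≤ K * n ∧ K * n < 2 ^ (blk K n).1 * (K + (blk K n).2 + 1) := by
  unfold blk
  set k := Nat.log 2 n with hk
  have h1 : 2 ^ k ≤ n := Nat.pow_log_le_self 2 hn
  have h2 : n < 2 ^ (k + 1) := Nat.lt_pow_succ_log_self (by norm_num) n
  simp only
  set P := 2 ^ k with hP
  have hP0 : 0 < P := by positivity
  have h3 : 2 ^ (k + 1) = 2 * P := by rw [pow_succ]; ring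
  rw [h3] at h2
  obtain ⟨d, hd⟩ := Nat.exists_eq_add_of_le h1
  have h4 : n - P = d := by omega
  rw [h4]
  set t := K * d / P with ht
  have h5 : t * P ≤ K * d := Nat.div_mul_le_self _ _
  have h6 : K * d < (t + 1) * P := by
    have := Nat.lt_div_mul_add (a := K * d) hP0
    rw [← ht] at this
    linarith [this]
  refine ⟨h1, by rw [h3]; exact h2, ?_, by rw [hd]; nlinarith, by rw [hd]; nlinarith⟩
  have h7 : d < P := by omega
  have h8 : t * P < K * P := lt_of_le_of_lt h5 (by nlinarith)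
  exact Nat.lt_of_mul_lt_mul_right h8

lemma ub_le {T K : ℕ} (hK : 1 ≤ K) (b : ℕ × ℕ) : ub T K b ≤ T / 2 ^ b.1 := by
  unfold ub
  rw [Nat.le_div_iff_mul_le (by positivity)]
  have h1 := Nat.div_mul_le_self (T * K) (2 ^ b.1 * (K + b.2))
  have h2 : T * K / (2 ^ b.1 * (K + b.2)) * 2 ^ b.1 * K ≤ T * K := by
    refine le_trans ?_ h1
    rw [mul_assoc]
    exact Nat.mul_le_mul_left _ (Nat.mul_le_mul_left _ (Nat.le_add_right _ _))
  exact Nat.le_of_mul_le_mul_right h2 hK

lemma le_ub {T K n y : ℕ} (hK : 1 ≤ K) (hn : n ≠ 0) (h : n * y ≤ T) : y ≤ ub T K (blk K n) := by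
  obtain ⟨-, -, -, h4, -⟩ := blk_spec hK hn
  unfold ub
  rw [Nat.le_div_iff_mul_le (by positivity)]
  calc y * (2 ^ (blk K n).1 * (K + (blk K n).2)) ≤ y * (K * n) := Nat.mul_le_mul_left _ h4
    _ = (n * y) * K := by ring
    _ ≤ T * K := Nat.mul_le_mul_right _ h

/-- the boundary -/
lemma bdry {T K n Z : ℕ} (hK : 1 ≤ K) (hKZ : K ≤ Z) (hn : n ≠ 0) :
    (((ZB (ub T K (blk K n))).filter (fun y => Z < nrm y ∧ T < n * nrm y)).card : ℝ) ≤
      50 * ((T : ℝ) / n) / Real.sqrt K := by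
  set U := ub T K (blk K n) with hU
  by_cases hZ : U ≤ Z
  · have : (ZB U).filter (fun y => Z < nrm y ∧ T < n * nrm y) = ∅ := by
      rw [filter_eq_empty_iff]
      intro y hy h
      rw [mem_ZB] at hy
      omega
    rw [this]
    simp only [card_empty, Nat.cast_zero]
    positivity
  · push Not at hZ
    have hsub : (ZB U).filter (fun y => Z < nrm y ∧ T < n * nrm y) ⊆
        (ZB U).filter (fun y => T / n < nrm y) := by
      intro y hy
      rw [mem_filter] at hy ⊢
      refine ⟨hy.1, ?_⟩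
      rw [Nat.div_lt_iff_lt_mul (Nat.pos_of_ne_zero hn)]
      linarith [hy.2.2]
    have h1 : (((ZB U).filter (fun y => Z < nrm y ∧ T < n * nrm y)).card : ℝ) ≤
        (2 * Nat.sqrt (2 * U) + 1) * (2 * (Nat.sqrt (4 * (U - T / n)) + 1)) := by
      exact_mod_cast (card_le_card hsub).trans (annulus (T / n) U)
    obtain ⟨b1, b2, b3, b4, b5⟩ := blk_spec hK hn
    set P := 2 ^ (blk K n).1 with hP
    set t := (blk K n).2 with ht
    have hP0 : 0 < P := by positivity
    have hPn2 : n < 2 * P := by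
      have : 2 ^ ((blk K n).1 + 1) = 2 * P := by rw [pow_succ]; ring
      omega
    have nr : (0 : ℝ) < n := by exact_mod_cast Nat.pos_of_ne_zero hn
    have Kr : (1 : ℝ) ≤ K := by exact_mod_cast hK
    have K0 : (0 : ℝ) < K := by linarith
    have Pr : (0 : ℝ) < P := by exact_mod_cast hP0
    set R : ℝ := (T : ℝ) / n with hR
    have hR0 : 0 ≤ R := by positivity
    -- U ≤ 2R
    have hU1 : (U : ℝ) ≤ 2 * R := by
      have h2 : U ≤ T / P := ub_le hK _
      have h3 : U * P ≤ T := (Nat.mul_le_mul_right _ h2).trans (Nat.div_mul_le_self _ _)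
      have h4 : (U : ℝ) * P ≤ T := by exact_mod_cast h3
      have h5 : (n : ℝ) < 2 * P := by exact_mod_cast hPn2
      rw [hR, mul_div_assoc', le_div_iff₀ nr]
      have : (0 : ℝ) ≤ U := Nat.cast_nonneg _
      nlinarith
    have hU2 : (K : ℝ) + 1 ≤ U := by
      have : K + 1 ≤ U := by omega
      exact_mod_cast this
    have hRK : (K : ℝ) ≤ 2 * R := by linarith
    have hR1 : 1 ≤ R := by linarith
    -- U - T / n
    have hU3 : ((U - T / n : ℕ) : ℝ) ≤ R / K + 1 := by
      by_cases hle : T / n ≤ U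
      · rw [Nat.cast_sub hle]
        have h2 : R - 1 ≤ ((T / n : ℕ) : ℝ) := by
          have := Nat.lt_div_mul_add (a := T) (Nat.pos_of_ne_zero hn)
          have h3 : (T : ℝ) < ((T / n : ℕ) : ℝ) * n + n := by exact_mod_cast this
          have h4 : R * n = T := by rw [hR]; field_simp
          nlinarith
        have h3 : (U : ℝ) ≤ R + R / K := by
          have h4 : U * (P * (K + t)) ≤ T * K := Nat.div_mul_le_self _ _
          have h5 : (U : ℝ) * (P * (K + t)) ≤ T * K := by exact_mod_cast h4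
          have h6 : (K : ℝ) * n < P * (K + t + 1) := by exact_mod_cast b5
          have h7 : R * n = T := by rw [hR]; field_simp
          have h8 : (0 : ℝ) < P * (K + t) := by positivity
          have h9 : (U : ℝ) * (P * (K + t)) ≤ (R + R / K) * (P * (K + t)) := by
            refine h5.trans ?_
            have e1 : (R + R / K) * (P * (K + t)) * K = R * (K + 1) * (P * (K + t)) := by field_simp
            have e2 : (T : ℝ) * K * K ≤ R * (K + 1) * (P * (K + t)) := by
              rw [← h7]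
              have e3 : (K : ℝ) * n * K ≤ (K + 1) * (P * (K + t)) := by
                have e4 : (P : ℝ) * (K + t + 1) * K ≤ (K + 1) * (P * (K + t)) := by
                  have : (0 : ℝ) ≤ t := Nat.cast_nonneg _
                  nlinarith [mul_nonneg Pr.le this]
                nlinarith
              nlinarith
            rw [← e1] at e2
            exact le_of_mul_le_mul_right e2 K0
          exact le_of_mul_le_mul_right h9 h8
        linarith
      · have : U - T / n = 0 := by omega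
        rw [this]
        push_cast
        positivity
    have hRK1 : 1 ≤ 2 * (R / K) := by
      rw [mul_div_assoc', le_div_iff₀ K0]
      linarith
    have s1 : (Nat.sqrt (2 * U) : ℝ) ≤ 2 * Real.sqrt R := by
      refine Real.nat_sqrt_le_real_sqrt.trans ?_
      have e : 2 * Real.sqrt R = Real.sqrt (4 * R) := by
        rw [Real.sqrt_mul (by norm_num)]
        congr 1
        rw [show (4 : ℝ) = 2 ^ 2 by norm_num]
        exact (Real.sqrt_sq (by norm_num)).symm
      rw [e]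
      apply Real.sqrt_le_sqrt
      push_cast
      linarith
    have s2 : (Nat.sqrt (4 * (U - T / n)) : ℝ) ≤ 7 / 2 * Real.sqrt (R / K) := by
      refine Real.nat_sqrt_le_real_sqrt.trans ?_
      have e : 7 / 2 * Real.sqrt (R / K) = Real.sqrt (49 / 4 * (R / K)) := by
        rw [Real.sqrt_mul (by norm_num)]
        congr 1
        rw [show (49 / 4 : ℝ) = (7 / 2) ^ 2 by norm_num]
        exact (Real.sqrt_sq (by norm_num)).symm
      rw [e]
      apply Real.sqrt_le_sqrt
      push_cast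
      linarith
    have r2 : Real.sqrt 2 ≤ 3 / 2 := Real.sqrt_le_iff.2 ⟨by norm_num, by norm_num⟩
    have r4 : 1 ≤ Real.sqrt R := Real.one_le_sqrt.2 hR1
    have r5 : 1 ≤ 3 / 2 * Real.sqrt (R / K) := by
      have : 1 ≤ Real.sqrt 2 * Real.sqrt (R / K) := by
        rw [← Real.sqrt_mul (by norm_num)]
        exact Real.one_le_sqrt.2 hRK1
      have h0 := Real.sqrt_nonneg (R / K)
      nlinarith
    have r6 : Real.sqrt (R / K) = Real.sqrt R / Real.sqrt K := Real.sqrt_div hR0 _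
    have r7 : Real.sqrt R * Real.sqrt R = R := Real.mul_self_sqrt hR0
    have h0 := Real.sqrt_nonneg (R / K)
    have c1 : 2 * (Nat.sqrt (2 * U) : ℝ) + 1 ≤ 5 * Real.sqrt R := by linarith
    have c2 : 2 * ((Nat.sqrt (4 * (U - T / n)) : ℝ) + 1) ≤ 10 * Real.sqrt (R / K) := by linarith
    have c0 : (0 : ℝ) ≤ 2 * ((Nat.sqrt (4 * (U - T / n)) : ℝ) + 1) := by positivity
    refine h1.trans ?_
    calc (2 * (Nat.sqrt (2 * U) : ℝ) + 1) * (2 * ((Nat.sqrt (4 * (U - T / n)) : ℝ) + 1))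
        ≤ (5 * Real.sqrt R) * (10 * Real.sqrt (R / K)) := mul_le_mul c1 c2 c0 (by positivity)
      _ = 50 * (Real.sqrt R * Real.sqrt R) / Real.sqrt K := by rw [r6]; ring
      _ = 50 * R / Real.sqrt K := by rw [r7]

/-- bilinear sums over hyperbolic regions -/
noncomputable def HB (α β : Ei → ℂ) (Z T : ℕ) : ℂ :=
  ∑ x ∈ SB T, ∑ y ∈ SB T, if Z < nrm x ∧ Z < nrm y ∧ nrm x * nrm y ≤ T then α x * β y * jac x y else 0

lemma cut_abs {α : Ei → ℂ} (h : ∀ x, ‖α x‖ ≤ 1) (p : Ei → Prop) [DecidablePred p] :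
    ∀ x, ‖if p x then α x else 0‖ ≤ 1 := by
  intro x
  split_ifs
  · exact h x
  · simp

/-- the bound in terms of the parameter `K` -/
theorem hyp_aux : ∃ C : ℝ, 1 ≤ C ∧ ∀ (α β : Ei → ℂ), (∀ x, ‖α x‖ ≤ 1) → (∀ x, ‖β x‖ ≤ 1) →
    ∀ K Z T : ℕ, 1 ≤ K → K ≤ Z → ‖HB α β Z T‖ ≤
      C * (T * lg T) * (K * (Z : ℝ) ^ (-(1 / 24) : ℝ) + 1 / Real.sqrt K) := by
  obtain ⟨C, hC1, hC⟩ := box
  refine ⟨4 * C + 1600, by linarith, ?_⟩
  intro α β hα hβ K Z T hK hKZ
  have hZ : 1 ≤ Z := hK.trans hKZ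
  have Kr : (1 : ℝ) ≤ K := by exact_mod_cast hK
  have K0 : (0 : ℝ) < K := by linarith
  have Z0 : (0 : ℝ) < Z := by exact_mod_cast hZ
  have hsK : 0 < Real.sqrt K := Real.sqrt_pos.2 K0
  have hlg := lg_pos T
  -- the main sum
  set A : ℂ := ∑ x ∈ SB T, ∑ y ∈ SB (ub T K (blk K (nrm x))),
    if Z < nrm x ∧ Z < nrm y then α x * β y * jac x y else 0 with hA
  set B : ℂ := ∑ x ∈ SB T, ∑ y ∈ (SB (ub T K (blk K (nrm x)))).filter
    (fun y => Z < nrm y ∧ T < nrm x * nrm y),
    if Z < nrm x then α x * β y * jac x y else 0 with hB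
  have hsplit : HB α β Z T = A - B := by
    rw [hA, hB, ← sum_sub_distrib]
    unfold HB
    refine sum_congr rfl fun x hx => ?_
    rw [mem_SB] at hx
    have hx0 := nrm_ne hx.2.ne
    rw [sum_filter, ← sum_sub_distrib]
    have h1 : (∑ y ∈ SB T, if Z < nrm x ∧ Z < nrm y ∧ nrm x * nrm y ≤ T then α x * β y * jac x y else 0) =
        ∑ y ∈ (SB T).filter (fun y => Z < nrm x ∧ Z < nrm y ∧ nrm x * nrm y ≤ T), α x * β y * jac x y := by
      rw [sum_filter]
    have h2 : (∑ y ∈ SB (ub T K (blk K (nrm x))), ((if Z < nrm x ∧ Z < nrm y then α x * β y * jac x y else 0) -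
        if Z < nrm y ∧ T < nrm x * nrm y then if Z < nrm x then α x * β y * jac x y else 0 else 0)) =
        ∑ y ∈ (SB (ub T K (blk K (nrm x)))).filter (fun y => Z < nrm x ∧ Z < nrm y ∧ nrm x * nrm y ≤ T),
          α x * β y * jac x y := by
      rw [sum_filter]
      refine sum_congr rfl fun y _ => ?_
      by_cases a1 : Z < nrm x
      · by_cases a2 : Z < nrm y
        · by_cases a3 : nrm x * nrm y ≤ T
          · have a4 : ¬ T < nrm x * nrm y := by omega
            simp [a1, a2, a3, a4]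
          · have a4 : T < nrm x * nrm y := by omega
            simp [a1, a2, a3, a4]
        · simp [a1, a2]
      · simp [a1]
    rw [h1, h2]
    refine sum_congr ?_ fun _ _ => rfl
    ext y
    simp only [mem_filter, mem_SB]
    constructor
    · rintro ⟨⟨-, h4⟩, h5⟩
      exact ⟨⟨le_ub hK hx0 h5.2.2, h4⟩, h5⟩
    · rintro ⟨⟨-, h4⟩, h5⟩
      refine ⟨⟨?_, h4⟩, h5⟩
      exact (Nat.le_mul_of_pos_left _ (Nat.pos_of_ne_zero hx0)).trans h5.2.2
  -- the boundary
  have hBb : ‖B‖ ≤ 1600 * (T * lg T) * (1 / Real.sqrt K) := by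
    rw [hB]
    refine (norm_sum_le _ _).trans ?_
    have h1 : ∀ x ∈ SB T, ‖∑ y ∈ (SB (ub T K (blk K (nrm x)))).filter
        (fun y => Z < nrm y ∧ T < nrm x * nrm y),
        if Z < nrm x then α x * β y * jac x y else 0‖ ≤ (50 * T / Real.sqrt K) * (1 / nrm x) := by
      intro x hx
      rw [mem_SB] at hx
      have hx0 := nrm_ne hx.2.ne
      refine (norm_sum_le _ _).trans ?_
      have h2 : ∀ y ∈ (SB (ub T K (blk K (nrm x)))).filter (fun y => Z < nrm y ∧ T < nrm x * nrm y),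
          ‖if Z < nrm x then α x * β y * jac x y else 0‖ ≤ 1 := by
        intro y _
        split_ifs
        · rw [norm_mul, norm_mul]
          exact mul_le_one₀ (mul_le_one₀ (hα x) (norm_nonneg _) (hβ y)) (norm_nonneg _) (jac_norm _ _)
        · simp
      refine (sum_le_sum h2).trans ?_
      rw [sum_const, nsmul_eq_mul, mul_one]
      have h3 : (((SB (ub T K (blk K (nrm x)))).filter (fun y => Z < nrm y ∧ T < nrm x * nrm y)).card : ℝ) ≤
          ((ZB (ub T K (blk K (nrm x)))).filter (fun y => Z < nrm y ∧ T < nrm x * nrm y)).card := by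
        have : (SB (ub T K (blk K (nrm x)))).filter (fun y => Z < nrm y ∧ T < nrm x * nrm y) ⊆
            (ZB (ub T K (blk K (nrm x)))).filter (fun y => Z < nrm y ∧ T < nrm x * nrm y) := by
          refine filter_subset_filter _ ?_
          intro y hy
          exact mem_ZB.2 (mem_SB.1 hy).1
        exact_mod_cast card_le_card this
      refine (h3.trans (bdry hK hKZ hx0)).trans (le_of_eq ?_)
      ring
    refine (sum_le_sum h1).trans ?_
    rw [← mul_sum]
    have h2 := hsum_SB T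
    calc (50 * T / Real.sqrt K) * ∑ x ∈ SB T, (1 : ℝ) / nrm x ≤ (50 * T / Real.sqrt K) * (32 * lg T) := by
          apply mul_le_mul_of_nonneg_left h2 (by positivity)
      _ = 1600 * (T * lg T) * (1 / Real.sqrt K) := by ring
  -- the main sum
  have hAb : ‖A‖ ≤ 4 * C * (T * lg T) * (K * (Z : ℝ) ^ (-(1 / 24) : ℝ)) := by
    have hmaps : ∀ x ∈ SB T, blk K (nrm x) ∈ (range (Nat.log 2 T + 1)) ×ˢ (range K) := by
      intro x hx
      rw [mem_SB] at hx
      have hx0 := nrm_ne hx.2.ne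
      obtain ⟨-, -, b3, -, -⟩ := blk_spec hK hx0
      rw [mem_product, mem_range, mem_range]
      refine ⟨?_, b3⟩
      have : Nat.log 2 (nrm x) ≤ Nat.log 2 T := Nat.log_mono_right hx.1
      show Nat.log 2 (nrm x) < _
      omega
    rw [hA, ← sum_fiberwise_of_maps_to hmaps]
    refine (norm_sum_le _ _).trans ?_
    have h1 : ∀ b ∈ (range (Nat.log 2 T + 1)) ×ˢ (range K),
        ‖∑ x ∈ (SB T).filter (fun x => blk K (nrm x) = b), ∑ y ∈ SB (ub T K (blk K (nrm x))),
          if Z < nrm x ∧ Z < nrm y then α x * β y * jac x y else 0‖ ≤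
          4 * C * T * (Z : ℝ) ^ (-(1 / 24) : ℝ) := by
      intro b _
      set α' : Ei → ℂ := fun x => if (Z < nrm x ∧ nrm x ≤ T ∧ blk K (nrm x) = b) then α x else 0 with hα'
      set β' : Ei → ℂ := fun y => if Z < nrm y then β y else 0 with hβ'
      have h2 : ∑ x ∈ (SB T).filter (fun x => blk K (nrm x) = b), ∑ y ∈ SB (ub T K (blk K (nrm x))),
          (if Z < nrm x ∧ Z < nrm y then α x * β y * jac x y else 0) =
          Bil α' β' (2 ^ (b.1 + 1)) (ub T K b) := by
        unfold Bil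
        have h3 : ∑ x ∈ (SB T).filter (fun x => blk K (nrm x) = b), ∑ y ∈ SB (ub T K (blk K (nrm x))),
            (if Z < nrm x ∧ Z < nrm y then α x * β y * jac x y else 0) =
            ∑ x ∈ (SB T).filter (fun x => blk K (nrm x) = b), ∑ y ∈ SB (ub T K b),
              α' x * β' y * jac x y := by
          refine sum_congr rfl fun x hx => ?_
          rw [mem_filter, mem_SB] at hx
          rw [hx.2]
          refine sum_congr rfl fun y _ => ?_
          by_cases a1 : Z < nrm x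
          · by_cases a2 : Z < nrm y
            · simp [hα', hβ', a1, a2, hx.2, hx.1.1]
            · simp [hβ', a2]
          · simp [hα', a1]
        rw [h3]
        refine sum_subset ?_ ?_
        · intro x hx
          rw [mem_filter, mem_SB] at hx
          rw [mem_SB]
          obtain ⟨-, b2, -, -, -⟩ := blk_spec hK (nrm_ne hx.1.2.ne)
          rw [hx.2] at b2
          exact ⟨b2.le, hx.1.2⟩
        · intro x hx hx'
          refine sum_eq_zero fun y _ => ?_
          have : α' x = 0 := by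
            simp only [hα']
            rw [if_neg]
            rintro ⟨-, e2, e3⟩
            apply hx'
            rw [mem_filter, mem_SB]
            exact ⟨⟨e2, (mem_SB.1 hx).2⟩, e3⟩
          rw [this, zero_mul, zero_mul]
      rw [h2]
      have hpos : (0 : ℝ) ≤ 4 * C * T * (Z : ℝ) ^ (-(1 / 24) : ℝ) := by
        have : (0 : ℝ) ≤ (Z : ℝ) ^ (-(1 / 24) : ℝ) := by positivity
        positivity
      by_cases c1 : 2 ^ (b.1 + 1) ≤ Z
      · have : Bil α' β' (2 ^ (b.1 + 1)) (ub T K b) = 0 := by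
          unfold Bil
          refine sum_eq_zero fun x hx => sum_eq_zero fun y _ => ?_
          have hx1 := (mem_SB.1 hx).1
          have : α' x = 0 := by
            simp only [hα']
            rw [if_neg]
            rintro ⟨e1, -⟩
            omega
          rw [this, zero_mul, zero_mul]
        rw [this, norm_zero]
        exact hpos
      by_cases c2 : ub T K b ≤ Z
      · have : Bil α' β' (2 ^ (b.1 + 1)) (ub T K b) = 0 := by
          unfold Bil
          refine sum_eq_zero fun x hx => sum_eq_zero fun y hy => ?_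
          have hy1 := (mem_SB.1 hy).1
          have : β' y = 0 := by
            simp only [hβ']
            rw [if_neg]
            omega
          rw [this, mul_zero, zero_mul]
        rw [this, norm_zero]
        exact hpos
      push Not at c1 c2
      have h3 := hC α' β' (cut_abs hα _) (cut_abs hβ _) (2 ^ (b.1 + 1)) (ub T K b) Nat.one_le_two_pow
        (by omega)
      refine h3.trans ?_
      have m1 : (((2 ^ (b.1 + 1) : ℕ) : ℝ)) ^ (-(1 / 24) : ℝ) ≤ (Z : ℝ) ^ (-(1 / 24) : ℝ) :=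
        Real.rpow_le_rpow_of_nonpos Z0 (by exact_mod_cast c1.le) (by norm_num)
      have m2 : ((ub T K b : ℕ) : ℝ) ^ (-(1 / 24) : ℝ) ≤ (Z : ℝ) ^ (-(1 / 24) : ℝ) :=
        Real.rpow_le_rpow_of_nonpos Z0 (by exact_mod_cast c2.le) (by norm_num)
      have m3 : (((2 ^ (b.1 + 1) : ℕ) : ℝ)) * (ub T K b : ℕ) ≤ 2 * T := by
        have e1 : ub T K b * 2 ^ b.1 ≤ T :=
          (Nat.mul_le_mul_right _ (ub_le hK b)).trans (Nat.div_mul_le_self _ _)
        have e2 : 2 ^ (b.1 + 1) * ub T K b ≤ 2 * T := by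
          rw [pow_succ]
          nlinarith
        exact_mod_cast e2
      have m4 : (0 : ℝ) ≤ (Z : ℝ) ^ (-(1 / 24) : ℝ) := by positivity
      calc C * ((((2 ^ (b.1 + 1) : ℕ) : ℝ)) * (ub T K b : ℕ) *
            ((((2 ^ (b.1 + 1) : ℕ) : ℝ)) ^ (-(1 / 24) : ℝ) + ((ub T K b : ℕ) : ℝ) ^ (-(1 / 24) : ℝ)))
          ≤ C * ((2 * T) * ((Z : ℝ) ^ (-(1 / 24) : ℝ) + (Z : ℝ) ^ (-(1 / 24) : ℝ))) := by
            apply mul_le_mul_of_nonneg_left _ (by linarith)
            exact mul_le_mul m3 (add_le_add m1 m2) (by positivity) (by positivity)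
        _ = 4 * C * T * (Z : ℝ) ^ (-(1 / 24) : ℝ) := by ring
    refine (sum_le_sum h1).trans (le_of_eq ?_)
    rw [sum_const, card_product, card_range, card_range, nsmul_eq_mul]
    unfold lg
    push_cast
    ring
  rw [hsplit]
  refine (norm_sub_le _ _).trans ?_
  refine (add_le_add hAb hBb).trans ?_
  have n1 : 0 ≤ (T : ℝ) * lg T := by positivity
  have n2 : (0 : ℝ) ≤ K * (Z : ℝ) ^ (-(1 / 24) : ℝ) := by positivity
  have n3 : 0 ≤ 1 / Real.sqrt K := by positivity
  have n4 := mul_nonneg n1 n2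
  have n5 := mul_nonneg n1 n3
  nlinarith [mul_nonneg (show (0 : ℝ) ≤ C by linarith) n5]

/-- **bilinear estimate over hyperbolic regions** -/
theorem hyp : ∃ C : ℝ, 1 ≤ C ∧ ∀ (α β : Ei → ℂ), (∀ x, ‖α x‖ ≤ 1) → (∀ x, ‖β x‖ ≤ 1) →
    ∀ Z T : ℕ, 1 ≤ Z → ‖HB α β Z T‖ ≤ C * (T * lg T) * (Z : ℝ) ^ (-(1 / 96) : ℝ) := by
  obtain ⟨C, hC1, hC⟩ := hyp_aux
  refine ⟨3 * C, by linarith, ?_⟩
  intro α β hα hβ Z T hZ
  have Z1 : (1 : ℝ) ≤ Z := by exact_mod_cast hZ
  have Z0 : (0 : ℝ) < Z := by linarith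
  have hz : (1 : ℝ) ≤ (Z : ℝ) ^ (1 / 48 : ℝ) := Real.one_le_rpow Z1 (by norm_num)
  set K := ⌊(Z : ℝ) ^ (1 / 48 : ℝ)⌋₊ with hK
  have hK1 : 1 ≤ K := Nat.le_floor (by simpa using hz)
  have hKle : (K : ℝ) ≤ (Z : ℝ) ^ (1 / 48 : ℝ) := Nat.floor_le (by positivity)
  have hKZ : K ≤ Z := by
    have h1 : (K : ℝ) ≤ Z := hKle.trans (by
      calc (Z : ℝ) ^ (1 / 48 : ℝ) ≤ (Z : ℝ) ^ (1 : ℝ) := Real.rpow_le_rpow_of_exponent_le Z1 (by norm_num)
        _ = Z := Real.rpow_one _)
    exact_mod_cast h1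
  have hKge : (Z : ℝ) ^ (1 / 48 : ℝ) ≤ 2 * K := by
    have h1 := Nat.lt_floor_add_one ((Z : ℝ) ^ (1 / 48 : ℝ))
    rw [← hK] at h1
    have h2 : (1 : ℝ) ≤ K := by exact_mod_cast hK1
    linarith
  refine (hC α β hα hβ K Z T hK1 hKZ).trans ?_
  have h1 : (K : ℝ) * (Z : ℝ) ^ (-(1 / 24) : ℝ) ≤ (Z : ℝ) ^ (-(1 / 96) : ℝ) := by
    calc (K : ℝ) * (Z : ℝ) ^ (-(1 / 24) : ℝ) ≤ (Z : ℝ) ^ (1 / 48 : ℝ) * (Z : ℝ) ^ (-(1 / 24) : ℝ) := by
          apply mul_le_mul_of_nonneg_right hKle (by positivity)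
      _ = (Z : ℝ) ^ (1 / 48 + -(1 / 24) : ℝ) := (Real.rpow_add Z0 _ _).symm
      _ ≤ (Z : ℝ) ^ (-(1 / 96) : ℝ) := Real.rpow_le_rpow_of_exponent_le Z1 (by norm_num)
  have h2 : 1 / Real.sqrt K ≤ 2 * (Z : ℝ) ^ (-(1 / 96) : ℝ) := by
    have K0 : (0 : ℝ) < K := by exact_mod_cast hK1
    have h3 : (Z : ℝ) ^ (1 / 96 : ℝ) ≤ 2 * Real.sqrt K := by
      have e1 : (Z : ℝ) ^ (1 / 96 : ℝ) = Real.sqrt ((Z : ℝ) ^ (1 / 48 : ℝ)) := by
        rw [Real.sqrt_eq_rpow, ← Real.rpow_mul Z0.le]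
        norm_num
      rw [e1]
      have e2 : 2 * Real.sqrt K = Real.sqrt (4 * K) := by
        rw [Real.sqrt_mul (by norm_num)]
        congr 1
        rw [show (4 : ℝ) = 2 ^ 2 by norm_num]
        exact (Real.sqrt_sq (by norm_num)).symm
      rw [e2]
      apply Real.sqrt_le_sqrt
      linarith
    have h4 : 0 < Real.sqrt K := Real.sqrt_pos.2 K0
    have h5 : (Z : ℝ) ^ (-(1 / 96) : ℝ) = 1 / (Z : ℝ) ^ (1 / 96 : ℝ) := by
      rw [Real.rpow_neg Z0.le]
      field_simp
    rw [h5, div_le_iff₀ h4]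
    have h6 : (0 : ℝ) < (Z : ℝ) ^ (1 / 96 : ℝ) := Real.rpow_pos_of_pos Z0 _
    rw [mul_assoc, mul_comm, mul_assoc, div_mul_eq_mul_div, one_mul, le_div_iff₀ h6]
    linarith
  have h3 : 0 ≤ C * (T * lg T) := by
    have := lg_pos T
    positivity
  calc C * (T * lg T) * (K * (Z : ℝ) ^ (-(1 / 24) : ℝ) + 1 / Real.sqrt K)
      ≤ C * (T * lg T) * ((Z : ℝ) ^ (-(1 / 96) : ℝ) + 2 * (Z : ℝ) ^ (-(1 / 96) : ℝ)) := by
        apply mul_le_mul_of_nonneg_left (add_le_add h1 h2) h3
    _ = 3 * C * (T * lg T) * (Z : ℝ) ^ (-(1 / 96) : ℝ) := by ring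

end Pool.Agent.Y699.E
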