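import Pool.Agent.H68.L.R_seed8.Y699.E.Sym

/-!
Sums of cubic symbols.
-/

set_option autoImplicit false

open Finset

namespace Pool.Agent.Y699.E

open Pool.Agent.Y692.QS (Ei w nr)
open Pool.Agent.Y715.T.Rec (cs)
open Pool.Agent.Y715.T.RecG (Pq)
open scoped ComplexConjugate

lemma nrm_three : nrm (3 : Ei) = 9 := by decide

lemma three_ne : (3 : Ei) ≠ 0 := by decide

/-- prescribed symbols -/
lemma exists_twist {S : Finset Ei} (hS : ∀ ρ ∈ S, Pq ρ) {π : Ei} (hπ : Pq π) (hπS : π ∉ S) :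
    ∃ c : Ei, prm c ∧ chi π c ≠ 1 ∧ chi π c ≠ 0 ∧ (∀ ρ ∈ S, chi ρ c = 1) := by
  set m : Ei := 3 * ∏ ρ ∈ S, ρ with hm
  have hcop : IsCoprime π m := by
    refine IsCoprime.mul_right ?_ ?_
    · exact ((hπ.prime.irreducible.coprime_iff_not_dvd).2 hπ.norm)
    · rw [IsCoprime.prod_right_iff]
      intro ρ hρ
      exact pq_cop hπ (hS ρ hρ) fun h => hπS (by rw [h]; exact hρ)
  obtain ⟨b, hb0, hb⟩ := exists_nonres hπ
  obtain ⟨x, y, hxy⟩ := hcop
  set a : Ei := x * π + b * (y * m) with ha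
  have ha1 : m ∣ a - 1 := ⟨b * y - y, by rw [ha]; linear_combination hxy⟩
  have ha2 : π ∣ a - b := ⟨x - b * x, by rw [ha]; linear_combination b * hxy⟩
  refine ⟨a, (dvd_mul_right _ _).trans ha1, ?_, ?_, ?_⟩
  · rw [chi_per hπ ha2, chi_of hb0]
    exact ez_ne hb
  · rw [chi_per hπ ha2, chi_of hb0]
    exact ez_ne_zero _
  · intro ρ hρ
    have h1 : ρ ∣ a - 1 := (Finset.dvd_prod_of_mem _ hρ).trans ((dvd_mul_left _ _).trans ha1)
    rw [chi_per (hS ρ hρ) h1, chi_one (hS ρ hρ)]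

open Classical in
/-- the product of two symbols, on primary elements -/
noncomputable def FF2 (x x' a : Ei) : ℂ := if prm a then jac x a * conj (jac x' a) else 0

lemma FF2_norm (x x' a : Ei) : ‖FF2 x x' a‖ ≤ 1 := by
  unfold FF2
  split_ifs
  · rw [norm_mul, Complex.norm_conj]
    exact mul_le_one₀ (jac_norm _ _) (norm_nonneg _) (jac_norm _ _)
  · simp

lemma FF2_symm (x x' a : Ei) : FF2 x x' a = conj (FF2 x' x a) := by
  unfold FF2
  split_ifs
  · rw [map_mul, Complex.conj_conj, mul_comm]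
  · simp

lemma FF2_sum_aux {x x' : Ei} (hx : PS x) (hx' : PS x') {π : Ei} (h1 : π ∈ PD x) (h2 : π ∉ PD x')
    (V : ℕ) : ‖∑ a ∈ ZB V, FF2 x x' a‖ ≤ 27 * (nrm x * nrm x') * (3 * Real.sqrt V + 1) := by
  classical
  have hq : 3 * (x * x') ≠ 0 := mul_ne_zero three_ne (mul_ne_zero hx.ne hx'.ne)
  have hπ := ((mem_PD hx.ne).1 h1).1
  have hS : ∀ ρ ∈ (PD x).erase π ∪ PD x', Pq ρ := by
    intro ρ hρ
    rw [mem_union] at hρ
    rcases hρ with h | h
    · exact ((mem_PD hx.ne).1 (mem_of_mem_erase h)).1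
    · exact ((mem_PD hx'.ne).1 h).1
  obtain ⟨c, hc1, hc2, hc4, hc3⟩ := exists_twist hS hπ (by
    rw [mem_union, not_or]
    exact ⟨notMem_erase _ _, h2⟩)
  have hjx : jac x c = chi π c := by
    unfold jac
    rw [← mul_prod_erase (PD x) _ h1, prod_eq_one, mul_one]
    intro ρ hρ
    exact hc3 ρ (mem_union_left _ hρ)
  have hjx' : jac x' c = 1 := prod_eq_one fun ρ hρ => hc3 ρ (mem_union_right _ hρ)
  have hcop : IsCoprime c (3 * (x * x')) := by
    refine IsCoprime.mul_right ?_ (IsCoprime.mul_right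
      (jac_cop hx (by rw [hjx]; exact hc4)).symm
      (jac_cop hx' (by rw [hjx']; exact one_ne_zero)).symm)
    obtain ⟨k, hk⟩ := hc1
    exact ⟨1, -k, by linear_combination hk⟩
  have h3 := csum hq (f := FF2 x x') ?_ (FF2_norm x x') hcop hc2 ?_ V
  · refine h3.trans (le_of_eq ?_)
    rw [nrm_mul, nrm_mul, nrm_three]
    push_cast
    ring
  · intro a b hab
    unfold FF2
    have e1 : (3 : Ei) ∣ a - b := (dvd_mul_right _ _).trans hab
    have e2 : x ∣ a - b := ((dvd_mul_right _ _).trans (dvd_mul_left _ _)).trans hab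
    have e3 : x' ∣ a - b := ((dvd_mul_left _ _).trans (dvd_mul_left _ _)).trans hab
    have e4 : prm a ↔ prm b := by
      unfold prm
      constructor
      · intro h
        have := dvd_sub h e1
        have e : a - 1 - (a - b) = b - 1 := by ring
        rwa [e] at this
      · intro h
        have := dvd_add h e1
        have e : b - 1 + (a - b) = a - 1 := by ring
        rwa [e] at this
    rw [jac_per hx.ne e2, jac_per hx'.ne e3]
    by_cases h : prm a
    · rw [if_pos h, if_pos (e4.1 h)]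
    · rw [if_neg h, if_neg (fun hh => h (e4.2 hh))]
  · intro a
    unfold FF2
    have e4 : prm (c * a) ↔ prm a :=
      ⟨fun h => prm_cancel hc1 h, fun h => prm_mul hc1 h⟩
    by_cases h : prm a
    · rw [if_pos h, if_pos (e4.2 h), jac_mul_right hx.ne, jac_mul_right hx'.ne, hjx, hjx']
      rw [one_mul]
      ring
    · rw [if_neg h, if_neg (fun hh => h (e4.1 hh)), mul_zero]

theorem FF2_sum {x x' : Ei} (hx : PS x) (hx' : PS x') (hne : x ≠ x') (V : ℕ) :
    ‖∑ a ∈ ZB V, FF2 x x' a‖ ≤ 27 * (nrm x * nrm x') * (3 * Real.sqrt V + 1) := by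
  have h1 : PD x ≠ PD x' := by
    intro h
    apply hne
    rw [← hx.prod, ← hx'.prod, h]
  by_cases h2 : PD x ⊆ PD x'
  · have h3 : ¬ PD x' ⊆ PD x := fun h => h1 (Subset.antisymm h2 h)
    obtain ⟨π, hπ, hπ'⟩ := not_subset.1 h3
    have := FF2_sum_aux hx' hx hπ hπ' V
    simp_rw [FF2_symm x x']
    rw [← map_sum, Complex.norm_conj, mul_comm (nrm x : ℝ)]
    exact this
  · obtain ⟨π, hπ, hπ'⟩ := not_subset.1 h2
    exact FF2_sum_aux hx hx' hπ hπ' V

open Classical in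
/-- primary squarefree elements of norm at most `M` -/
noncomputable def SB (M : ℕ) : Finset Ei := (ZB M).filter PS

open Classical in
/-- primary elements of norm at most `M` -/
noncomputable def PB (M : ℕ) : Finset Ei := (ZB M).filter prm

open Classical in
lemma mem_SB {M : ℕ} {x : Ei} : x ∈ SB M ↔ nrm x ≤ M ∧ PS x := by
  unfold SB; rw [mem_filter, mem_ZB]

open Classical in
lemma mem_PB {M : ℕ} {x : Ei} : x ∈ PB M ↔ nrm x ≤ M ∧ prm x := by
  unfold PB; rw [mem_filter, mem_ZB]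

open Classical in
lemma card_SB_le {M : ℕ} (hM : 1 ≤ M) : ((SB M).card : ℝ) ≤ 16 * M := by
  refine le_trans ?_ (card_ZB_le hM)
  exact_mod_cast card_le_card (filter_subset _ _)

open Classical in
lemma card_PB_le {M : ℕ} (hM : 1 ≤ M) : ((PB M).card : ℝ) ≤ 16 * M := by
  refine le_trans ?_ (card_ZB_le hM)
  exact_mod_cast card_le_card (filter_subset _ _)

/-- the mean square -/
theorem mean_sq {γ : Ei → ℂ} (hγ : ∀ x, ‖γ x‖ ≤ 1) {M N : ℕ} (hM : 1 ≤ M) (hMN : M ^ 6 ≤ N) :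
    ∑ h ∈ PB N, ‖∑ x ∈ SB M, γ x * jac x h‖ ^ 2 ≤ 27904 * (M * N) := by
  have hN : 1 ≤ N := (Nat.one_le_pow _ _ hM).trans hMN
  have hMr : (1 : ℝ) ≤ M := by exact_mod_cast hM
  have hNr : (1 : ℝ) ≤ N := by exact_mod_cast hN
  have e1 : ((∑ h ∈ PB N, ‖∑ x ∈ SB M, γ x * jac x h‖ ^ 2 : ℝ) : ℂ) =
      ∑ x ∈ SB M, ∑ x' ∈ SB M, γ x * conj (γ x') * ∑ h ∈ ZB N, FF2 x x' h := by
    have e2 : ∀ h ∈ PB N, ((‖∑ x ∈ SB M, γ x * jac x h‖ ^ 2 : ℝ) : ℂ) =
        ∑ x ∈ SB M, ∑ x' ∈ SB M, γ x * conj (γ x') * (jac x h * conj (jac x' h)) := by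
      intro h _
      rw [← Complex.normSq_eq_norm_sq, ← Complex.mul_conj, map_sum, sum_mul_sum]
      refine sum_congr rfl fun x _ => sum_congr rfl fun x' _ => ?_
      rw [map_mul]
      ring
    rw [Complex.ofReal_sum, sum_congr rfl e2, sum_comm]
    refine sum_congr rfl fun x _ => ?_
    rw [sum_comm]
    refine sum_congr rfl fun x' _ => ?_
    rw [← mul_sum]
    congr 1
    unfold PB FF2
    rw [sum_filter]
  have e0 : ∑ h ∈ PB N, ‖∑ x ∈ SB M, γ x * jac x h‖ ^ 2 ≤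
      ‖∑ x ∈ SB M, ∑ x' ∈ SB M, γ x * conj (γ x') * ∑ h ∈ ZB N, FF2 x x' h‖ := by
    rw [← e1, Complex.norm_real]
    exact le_abs_self _
  refine e0.trans ?_
  have hs : Real.sqrt N ^ 2 = N := Real.sq_sqrt (Nat.cast_nonneg N)
  have hs1 : 1 ≤ Real.sqrt N := Real.one_le_sqrt.2 hNr
  have hM3 : (M : ℝ) ^ 3 ≤ Real.sqrt N := by
    rw [Real.le_sqrt (by positivity) (by positivity)]
    have : (M : ℝ) ^ 6 ≤ N := by exact_mod_cast hMN
    have e : ((M : ℝ) ^ 3) ^ 2 = (M : ℝ) ^ 6 := by ring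
    rw [e]
    exact this
  have hterm : ∀ x ∈ SB M, ∀ x' ∈ SB M, ‖γ x * conj (γ x') * ∑ h ∈ ZB N, FF2 x x' h‖ ≤
      (if x = x' then 16 * (N : ℝ) else 0) + 27 * ((M : ℝ) * M) * (3 * Real.sqrt N + 1) := by
    intro x hx x' hx'
    have hg : ‖γ x * conj (γ x')‖ ≤ 1 := by
      rw [norm_mul, Complex.norm_conj]
      exact mul_le_one₀ (hγ _) (norm_nonneg _) (hγ _)
    have h1 : ‖γ x * conj (γ x') * ∑ h ∈ ZB N, FF2 x x' h‖ ≤ ‖∑ h ∈ ZB N, FF2 x x' h‖ := by
      rw [norm_mul]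
      exact mul_le_of_le_one_left (norm_nonneg _) hg
    refine h1.trans ?_
    have hpos : (0 : ℝ) ≤ 27 * ((M : ℝ) * M) * (3 * Real.sqrt N + 1) := by positivity
    by_cases hxx : x = x'
    · rw [if_pos hxx]
      refine le_trans ?_ (le_add_of_nonneg_right hpos)
      refine (norm_sum_le _ _).trans ((sum_le_sum fun h _ => FF2_norm _ _ _).trans ?_)
      rw [sum_const, nsmul_eq_mul, mul_one]
      exact card_ZB_le hN
    · rw [if_neg hxx, zero_add]
      refine (FF2_sum (mem_SB.1 hx).2 (mem_SB.1 hx').2 hxx N).trans ?_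
      have a1 : (nrm x : ℝ) ≤ M := by exact_mod_cast (mem_SB.1 hx).1
      have a2 : (nrm x' : ℝ) ≤ M := by exact_mod_cast (mem_SB.1 hx').1
      have a3 : (nrm x : ℝ) * nrm x' ≤ M * M := mul_le_mul a1 a2 (Nat.cast_nonneg _) (by positivity)
      gcongr
  refine ((norm_sum_le _ _).trans (sum_le_sum fun x hx => (norm_sum_le _ _).trans
    (sum_le_sum fun x' hx' => hterm x hx x' hx'))).trans ?_
  have hc := card_SB_le hM
  have e3 : ∑ x ∈ SB M, ∑ x' ∈ SB M, ((if x = x' then 16 * (N : ℝ) else 0) +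
      27 * ((M : ℝ) * M) * (3 * Real.sqrt N + 1)) =
      (SB M).card * (16 * N) + (SB M).card * ((SB M).card * (27 * ((M : ℝ) * M) * (3 * Real.sqrt N + 1))) := by
    simp_rw [sum_add_distrib, sum_const, nsmul_eq_mul]
    congr 1
    rw [sum_congr rfl (fun x hx => by rw [sum_ite_eq, if_pos hx])]
    rw [sum_const, nsmul_eq_mul]
  rw [e3]
  have hc0 : (0 : ℝ) ≤ (SB M).card := Nat.cast_nonneg _
  have h4 : ((SB M).card : ℝ) * (SB M).card ≤ (16 * M) * (16 * M) := mul_le_mul hc hc hc0 (by positivity)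
  have h5 : (M : ℝ) ^ 3 * (3 * Real.sqrt N + 1) ≤ 4 * N := by
    calc (M : ℝ) ^ 3 * (3 * Real.sqrt N + 1) ≤ Real.sqrt N * (4 * Real.sqrt N) := by
          apply mul_le_mul hM3 _ (by positivity) (by positivity)
          linarith
      _ = 4 * N := by nlinarith
  calc (SB M).card * (16 * (N : ℝ)) + (SB M).card * ((SB M).card * (27 * ((M : ℝ) * M) * (3 * Real.sqrt N + 1)))
      ≤ (16 * M) * (16 * N) + (16 * M) * (16 * M) * (27 * ((M : ℝ) * M) * (3 * Real.sqrt N + 1)) := by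
        rw [← mul_assoc ((SB M).card : ℝ) ((SB M).card : ℝ)]
        gcongr
    _ = 256 * (M * N) + 6912 * (M * ((M : ℝ) ^ 3 * (3 * Real.sqrt N + 1))) := by ring
    _ ≤ 256 * (M * N) + 6912 * (M * (4 * N)) := by gcongr
    _ = 27904 * (M * N) := by ring

end Pool.Agent.Y699.E
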