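import Pool.Agent.H68.L.R_seed8.Y715.T.RecC

/-!
Primary primes of the Eisenstein integers.
-/

set_option autoImplicit false
set_option linter.unusedSectionVars false

open Finset

namespace Pool.Agent.Y699.E

open Pool.Agent.Y692.QS (Ei w nr toC nr_mul nr_nonneg nr_zero_iff isUnit_iff nr_one ns_fix ns_unit int_dvd
  nr_nat nr_star mul_star)
open Pool.Agent.Y715.T.RecG (Pq)
open Pool.Agent.Y715.T.Rs

/-- the norm as a natural number -/
def nrm (a : Ei) : ℕ := (nr a).natAbs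

lemma nrm_cast (a : Ei) : (nrm a : ℤ) = nr a := Int.natAbs_of_nonneg (nr_nonneg a)

lemma nrm_eq' (a : Ei) : (nrm a : ℤ) = a.re ^ 2 - a.re * a.im + a.im ^ 2 := nrm_cast a

lemma nrm_mul (a b : Ei) : nrm (a * b) = nrm a * nrm b := by
  unfold nrm
  rw [nr_mul, Int.natAbs_mul]

lemma nrm_zero_iff {a : Ei} : nrm a = 0 ↔ a = 0 := by
  unfold nrm
  rw [Int.natAbs_eq_zero]
  exact nr_zero_iff

lemma nrm_ne {a : Ei} (h : a ≠ 0) : nrm a ≠ 0 := fun h' => h (nrm_zero_iff.1 h')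

lemma nrm_pos' {x : Ei} (h : x ≠ 0) : 0 < nrm x := Nat.pos_of_ne_zero (nrm_ne h)

lemma nrm_one : nrm 1 = 1 := by decide

lemma dvd_nrm (q : Ei) : q ∣ ((nrm q : ℕ) : Ei) := by
  refine ⟨star q, ?_⟩
  rw [mul_star, ← nrm_cast]
  simp

lemma nrm_one_iff {a : Ei} : nrm a = 1 ↔ IsUnit a := by
  rw [isUnit_iff, ← nrm_cast]
  exact_mod_cast Iff.rfl

/-- primary elements -/
def prm (a : Ei) : Prop := (3 : Ei) ∣ a - 1

lemma prm_one : prm 1 := by unfold prm; rw [sub_self]; exact dvd_zero _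

lemma prm_mul {a b : Ei} (ha : prm a) (hb : prm b) : prm (a * b) := by
  unfold prm at *
  have h : a * b - 1 = (a - 1) * b + (b - 1) := by ring
  rw [h]
  exact dvd_add (ha.mul_right _) hb

lemma prm_cancel {a b : Ei} (ha : prm a) (h : prm (a * b)) : prm b := by
  unfold prm at *
  have e : b - 1 = (a * b - 1) - (a - 1) * b := by ring
  rw [e]
  exact dvd_sub h (ha.mul_right _)

lemma not_three_one : ¬ (3 : Ei) ∣ 1 := by
  intro h
  have h1 : (((3 : ℤ) : Ei)) ∣ ((1 : ℤ) : Ei) := by exact_mod_cast h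
  rw [Pool.Agent.Y692.QS.int_dvd_int] at h1
  omega

lemma prm_ne_zero {a : Ei} (h : prm a) : a ≠ 0 := by
  rintro rfl
  unfold prm at h
  rw [zero_sub, dvd_neg] at h
  exact not_three_one h

lemma eq_one_of_prm {u : Ei} (h : prm u) (hu : IsUnit u) : u = 1 := by
  rw [← ns_fix h, ns_unit hu]

lemma pq_ne {π : Ei} (h : Pq π) : π ≠ 0 := h.prime.ne_zero

lemma pq_prm {π : Ei} (h : Pq π) : prm π := h.three

lemma eq_of_dvd {π ρ : Ei} (h : Pq π) (h' : Pq ρ) (hd : π ∣ ρ) : π = ρ := by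
  obtain ⟨c, hc⟩ := hd
  have hcu : IsUnit c := by
    rcases h'.prime.irreducible.isUnit_or_isUnit hc with h1 | h1
    · exact absurd h1 h.prime.not_isUnit
    · exact h1
  have hcp : prm c := prm_cancel h.three (by rw [← hc]; exact h'.three)
  rw [hc, eq_one_of_prm hcp hcu, mul_one]

lemma pq_cop {π ρ : Ei} (h : Pq π) (h' : Pq ρ) (hne : π ≠ ρ) : IsCoprime π ρ :=
  (h.prime.irreducible.coprime_iff_not_dvd).2 fun hd => hne (eq_of_dvd h h' hd)

/-- finitely many elements of bounded norm -/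
lemma fin_norm_le (N : ℕ) : {a : Ei | nrm a ≤ N}.Finite := by
  have h : {a : Ei | nrm a ≤ N} ⊆
      (fun p : ℤ × ℤ => (⟨p.1, p.2⟩ : Ei)) '' ((Set.Icc (-(2 * N : ℤ)) (2 * N)) ×ˢ (Set.Icc (-(2 * N : ℤ)) (2 * N))) := by
    intro a ha
    refine ⟨(a.re, a.im), ?_, by ext <;> rfl⟩
    have h1 : nrm a ≤ N := ha
    have h2 := nrm_eq' a
    have h3 : a.re ^ 2 - a.re * a.im + a.im ^ 2 ≤ N := by rw [← h2]; exact_mod_cast h1
    have h4 : ∀ x : ℤ, x ^ 2 ≤ 2 * N → -(2 * N : ℤ) ≤ x ∧ x ≤ 2 * N := by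
      intro x hx
      constructor
      · nlinarith [sq_nonneg (x + 1), sq_nonneg x]
      · nlinarith [sq_nonneg (x - 1)]
    obtain ⟨h5, h6⟩ := h4 a.re (by nlinarith [sq_nonneg (2 * a.im - a.re), sq_nonneg a.re])
    obtain ⟨h7, h8⟩ := h4 a.im (by nlinarith [sq_nonneg (2 * a.re - a.im), sq_nonneg a.im])
    exact ⟨⟨h5, h6⟩, ⟨h7, h8⟩⟩
  exact (((Set.finite_Icc _ _).prod (Set.finite_Icc _ _)).image _).subset h

lemma norm_le_of_dvd {a n : Ei} (hn : n ≠ 0) (h : a ∣ n) : nrm a ≤ nrm n := by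
  obtain ⟨c, rfl⟩ := h
  have hc : c ≠ 0 := right_ne_zero_of_mul hn
  rw [nrm_mul]
  exact Nat.le_mul_of_pos_right _ (nrm_pos' hc)

lemma fin_pd {n : Ei} (hn : n ≠ 0) : {π : Ei | Pq π ∧ π ∣ n}.Finite :=
  (fin_norm_le (nrm n)).subset fun _ h => norm_le_of_dvd hn h.2

open Classical in
/-- the primary primes dividing `n` -/
noncomputable def PD (n : Ei) : Finset Ei := if h : n ≠ 0 then (fin_pd h).toFinset else ∅

lemma mem_PD {n π : Ei} (hn : n ≠ 0) : π ∈ PD n ↔ Pq π ∧ π ∣ n := by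
  unfold PD
  rw [dif_pos hn, Set.Finite.mem_toFinset]
  rfl

/-- primary and squarefree -/
structure PS (n : Ei) : Prop where
  prm : prm n
  sqf : Squarefree n

lemma PS.ne {n : Ei} (h : PS n) : n ≠ 0 := prm_ne_zero h.prm

lemma PS_one : PS (1 : Ei) := ⟨prm_one, squarefree_one⟩

/-- every prime not dividing `3` is associated to a primary one -/
lemma exists_PP {ρ : Ei} (hρ : Prime ρ) (ho : ¬ ρ ∣ 3) : ∃ π, Pq π ∧ Associated π ρ := by
  obtain ⟨u, hu, h3⟩ := Pool.Agent.Y715.T.RecC.exists_prim hρ ho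
  have ha : Associated (u * ρ) ρ := (associated_isUnit_mul_left_iff hu).2 (Associated.refl ρ)
  exact ⟨u * ρ, ⟨ha.symm.prime hρ, h3⟩, ha⟩

lemma not_dvd_three {ρ n : Ei} (hρ : Prime ρ) (h : ρ ∣ n) (hn : prm n) : ¬ ρ ∣ 3 := by
  intro h3
  have h1 : ρ ∣ n - 1 := h3.trans hn
  have h2 := dvd_sub h h1
  rw [sub_sub_cancel] at h2
  exact hρ.not_isUnit (isUnit_of_dvd_one h2)

lemma prm_prod {S : Finset Ei} (hS : ∀ π ∈ S, prm π) : prm (∏ π ∈ S, π) :=
  Finset.prod_induction _ prm (fun _ _ => prm_mul) prm_one hS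

lemma PS.prod {n : Ei} (h : PS n) : ∏ π ∈ PD n, π = n := by
  have hn := h.ne
  have h1 : (∏ π ∈ PD n, π) ∣ n := by
    refine Finset.prod_dvd_of_coprime ?_ ?_
    · intro π hπ ρ hρ hne
      exact pq_cop ((mem_PD hn).1 hπ).1 ((mem_PD hn).1 hρ).1 hne
    · intro π hπ
      exact ((mem_PD hn).1 hπ).2
  obtain ⟨u, hu⟩ := h1
  have hP : E.prm (∏ π ∈ PD n, π) := prm_prod fun π hπ => ((mem_PD hn).1 hπ).1.three
  have hup : E.prm u := prm_cancel hP (by rw [← hu]; exact h.prm)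
  have huu : IsUnit u := by
    by_contra hnu
    obtain ⟨ρ, hρ, hρu⟩ := WfDvdMonoid.exists_irreducible_factor hnu (prm_ne_zero hup)
    have hρ' : Prime ρ := irreducible_iff_prime.1 hρ
    have h2 : ρ ∣ n := by rw [hu]; exact hρu.mul_left _
    obtain ⟨π, hπ, hass⟩ := exists_PP hρ' (not_dvd_three hρ' h2 h.prm)
    have h3 : π ∈ PD n := (mem_PD hn).2 ⟨hπ, hass.dvd.trans h2⟩
    have h4 : π * π ∣ n := by
      rw [hu]
      exact mul_dvd_mul (Finset.dvd_prod_of_mem _ h3) (hass.dvd.trans hρu)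
    exact hπ.prime.not_isUnit (h.sqf _ h4)
  rw [eq_one_of_prm hup huu, mul_one] at hu
  exact hu.symm

lemma PS.of_dvd {d D : Ei} (h : PS D) (hd : E.prm d) (hdD : d ∣ D) : PS d :=
  ⟨hd, h.sqf.squarefree_of_dvd hdD⟩

/-- products of sets of primary primes -/
lemma PS_prod {S : Finset Ei} (hS : ∀ π ∈ S, Pq π) : PS (∏ π ∈ S, π) ∧ PD (∏ π ∈ S, π) = S := by
  classical
  set n := ∏ π ∈ S, π with hn
  have hP : prm n := prm_prod fun π hπ => (hS π hπ).three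
  have hn0 : n ≠ 0 := prm_ne_zero hP
  have hmem : ∀ ρ : Ei, Prime ρ → ρ ∣ n → ∃ π ∈ S, Associated ρ π := by
    intro ρ hρ h
    rw [hn] at h
    obtain ⟨π, hπ, h2⟩ := (hρ.dvd_finsetProd_iff _).1 h
    exact ⟨π, hπ, (hρ.irreducible).associated_of_dvd (hS π hπ).prime.irreducible h2⟩
  have hPD : PD n = S := by
    ext π
    rw [mem_PD hn0]
    constructor
    · rintro ⟨h1, h2⟩
      obtain ⟨ρ, hρ, hass⟩ := hmem π h1.prime h2
      rw [eq_of_dvd h1 (hS ρ hρ) hass.dvd]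
      exact hρ
    · intro h
      exact ⟨hS π h, Finset.dvd_prod_of_mem _ h⟩
  refine ⟨⟨hP, ?_⟩, hPD⟩
  intro x hx
  by_contra hnu
  have hx0 : x ≠ 0 := by
    rintro rfl
    rw [zero_mul, zero_dvd_iff] at hx
    exact hn0 hx
  obtain ⟨ρ, hρ, hρx⟩ := WfDvdMonoid.exists_irreducible_factor hnu hx0
  have hρ' : Prime ρ := irreducible_iff_prime.1 hρ
  have h1 : ρ * ρ ∣ n := (mul_dvd_mul hρx hρx).trans hx
  obtain ⟨π, hπ, hass⟩ := hmem ρ hρ' ((dvd_mul_right _ _).trans h1)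
  have h2 : π * π ∣ π * ∏ σ ∈ S.erase π, σ := by
    rw [Finset.mul_prod_erase S (fun σ => σ) hπ]
    exact (mul_dvd_mul hass.symm.dvd hass.symm.dvd).trans h1
  have h3 := (mul_dvd_mul_iff_left (hS π hπ).prime.ne_zero).1 h2
  obtain ⟨σ, hσ, h4⟩ := ((hS π hπ).prime.dvd_finsetProd_iff _).1 h3
  have h5 := eq_of_dvd (hS π hπ) (hS σ (Finset.mem_of_mem_erase hσ)) h4
  exact (Finset.mem_erase.1 hσ).1 h5.symm

lemma PD_subset {d D : Ei} (hD : D ≠ 0) (h : d ∣ D) : PD d ⊆ PD D := by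
  intro π hπ
  have hd : d ≠ 0 := by
    rintro rfl
    exact hD (zero_dvd_iff.1 h)
  rw [mem_PD hd] at hπ
  exact (mem_PD hD).2 ⟨hπ.1, hπ.2.trans h⟩

lemma PD_one : PD (1 : Ei) = ∅ := by
  rw [Finset.eq_empty_iff_forall_notMem]
  intro π hπ
  rw [mem_PD one_ne_zero] at hπ
  exact hπ.1.prime.not_isUnit (isUnit_of_dvd_one hπ.2)

lemma PD_mul {a b : Ei} (ha : a ≠ 0) (hb : b ≠ 0) : PD (a * b) = PD a ∪ PD b := by
  classical
  ext π
  rw [Finset.mem_union, mem_PD (mul_ne_zero ha hb), mem_PD ha, mem_PD hb]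
  constructor
  · rintro ⟨h1, h2⟩
    rcases h1.prime.dvd_or_dvd h2 with h | h
    · exact Or.inl ⟨h1, h⟩
    · exact Or.inr ⟨h1, h⟩
  · rintro (⟨h1, h2⟩ | ⟨h1, h2⟩)
    · exact ⟨h1, h2.mul_right _⟩
    · exact ⟨h1, h2.mul_left _⟩

lemma PD_disj {a b : Ei} (ha : a ≠ 0) (hb : b ≠ 0) (h : IsCoprime a b) : Disjoint (PD a) (PD b) := by
  rw [Finset.disjoint_left]
  intro π h1 h2
  rw [mem_PD ha] at h1
  rw [mem_PD hb] at h2
  exact h1.1.prime.not_isUnit (h.isUnit_of_dvd' h1.2 h2.2)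

lemma PD_prime {π : Ei} (h : Pq π) : PD π = {π} := by
  ext ρ
  rw [mem_PD (pq_ne h), Finset.mem_singleton]
  constructor
  · rintro ⟨h1, h2⟩
    exact eq_of_dvd h1 h h2
  · rintro rfl
    exact ⟨h, dvd_rfl⟩

lemma PS.mul_iff {a b : Ei} (ha : E.prm a) (hb : E.prm b) : PS (a * b) ↔ PS a ∧ PS b ∧ IsCoprime a b := by
  constructor
  · intro h
    refine ⟨h.of_dvd ha (dvd_mul_right _ _), h.of_dvd hb (dvd_mul_left _ _), ?_⟩
    exact (isRelPrime_iff_isCoprime.1 (squarefree_mul_iff.1 h.sqf).1)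
  · rintro ⟨h1, h2, h3⟩
    exact ⟨prm_mul ha hb, squarefree_mul_iff.2 ⟨isRelPrime_iff_isCoprime.2 h3, h1.sqf, h2.sqf⟩⟩

end Pool.Agent.Y699.E
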