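import Pool.Agent.H68.L.R_seed8.Y699.E.Rec0
import Pool.Agent.H68.L.R_seed8.Y699.E.Csum

/-!
Cubic residue symbols.
-/

set_option autoImplicit false
set_option linter.unusedSectionVars false

open Finset

namespace Pool.Agent.Y699.E

open Pool.Agent.Y692.QS (Ei w nr toC wC wC_sq toC_apply toC_inj wC_conj)
open Pool.Agent.Y715.T.Rec (cs w_add w_inj mk_eq_zero)
open Pool.Agent.Y715.T.RecG (Pq cs_congr cs_mul cs_one cs_zero_iff)
open Pool.Agent.Y715.T.Rs
open scoped ComplexConjugate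

/-- the additive character of `ZMod 3` -/
noncomputable def ez (c : ZMod 3) : ℂ := toC w ^ c.val

lemma ez_pow (c : ZMod 3) : ez c = toC (w ^ c.val) := by unfold ez; rw [map_pow]

lemma ez_zero : ez 0 = 1 := by unfold ez; simp

lemma ez_add (a b : ZMod 3) : ez (a + b) = ez a * ez b := by
  rw [ez_pow, ez_pow, ez_pow, w_add, map_mul]

lemma ez_ne {c : ZMod 3} (h : c ≠ 0) : ez c ≠ 1 := by
  rw [ez_pow]
  intro h1
  apply h
  apply w_inj
  rw [ZMod.val_zero, pow_zero]
  apply toC_inj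
  rw [h1, map_one]

lemma ez_sum {ι : Type*} (s : Finset ι) (f : ι → ZMod 3) : ez (∑ i ∈ s, f i) = ∏ i ∈ s, ez (f i) := by
  classical
  induction s using Finset.induction_on with
  | empty => rw [sum_empty, prod_empty, ez_zero]
  | insert a s ha ih => rw [sum_insert ha, prod_insert ha, ez_add, ih]

lemma ez_mul_neg (c : ZMod 3) : ez c * ez (-c) = 1 := by
  rw [← ez_add, add_neg_cancel, ez_zero]

lemma norm_ez (c : ZMod 3) : ‖ez c‖ = 1 := by
  have h : ez c ^ 3 = 1 := by
    have : ez c ^ 3 = ez (c + c + c) := by rw [ez_add, ez_add]; ring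
    rw [this]
    have h0 : c + c + c = 0 := by
      clear this
      revert c
      decide
    rw [h0, ez_zero]
  have h1 := congrArg norm h
  rw [norm_pow, norm_one] at h1
  exact (pow_eq_one_iff_of_nonneg (norm_nonneg _) (by norm_num)).1 h1

lemma ez_ne_zero (c : ZMod 3) : ez c ≠ 0 := by
  intro h
  have := norm_ez c
  rw [h, norm_zero] at this
  exact zero_ne_one this

lemma conj_ez (c : ZMod 3) : conj (ez c) = ez (-c) := by
  have h1 := ez_mul_neg c
  have h2 : ez c * conj (ez c) = 1 := by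
    rw [Complex.mul_conj, Complex.normSq_eq_norm_sq, norm_ez]
    norm_num
  exact mul_left_cancel₀ (ez_ne_zero c) (h2.trans h1.symm)

lemma sum_ez (a : ZMod 3) : ∑ c : ZMod 3, ez (c * a) = if a = 0 then 3 else 0 := by
  by_cases h : a = 0
  · rw [if_pos h, h]
    simp only [mul_zero, ez_zero, sum_const, card_univ, ZMod.card, nsmul_eq_mul, mul_one]
    norm_num
  · rw [if_neg h]
    have h1 : ∑ c : ZMod 3, ez (c * a) = ez a * ∑ c : ZMod 3, ez (c * a) := by
      rw [mul_sum]
      rw [← Equiv.sum_comp (Equiv.addRight (1 : ZMod 3)) (fun c => ez (c * a))]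
      refine sum_congr rfl fun c _ => ?_
      show ez ((c + 1) * a) = _
      rw [add_mul, one_mul, ez_add, mul_comm]
    have h2 : (1 - ez a) * ∑ c : ZMod 3, ez (c * a) = 0 := by linear_combination h1
    rcases mul_eq_zero.1 h2 with h3 | h3
    · exact absurd (sub_eq_zero.1 h3).symm (ez_ne h)
    · exact h3

open Classical in
/-- the cubic residue symbol -/
noncomputable def chi (π x : Ei) : ℂ := if π ∣ x then 0 else ez (cs π x)

lemma chi_zero_iff {π x : Ei} : chi π x = 0 ↔ π ∣ x := by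
  unfold chi
  split_ifs with h
  · simp [h]
  · simp [h, ez_ne_zero]

lemma chi_of {π x : Ei} (h : ¬ π ∣ x) : chi π x = ez (cs π x) := by
  unfold chi
  rw [if_neg h]

lemma chi_mul {π : Ei} (h : Pq π) (x y : Ei) : chi π (x * y) = chi π x * chi π y := by
  by_cases h1 : π ∣ x
  · rw [chi_zero_iff.2 (h1.mul_right y), chi_zero_iff.2 h1, zero_mul]
  by_cases h2 : π ∣ y
  · rw [chi_zero_iff.2 (h2.mul_left x), chi_zero_iff.2 h2, mul_zero]
  have h3 : ¬ π ∣ x * y := fun h' => (h.prime.dvd_or_dvd h').elim h1 h2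
  rw [chi_of h1, chi_of h2, chi_of h3, cs_mul h.prime h.norm h1 h2, ez_add]

lemma chi_one {π : Ei} (h : Pq π) : chi π 1 = 1 := by
  rw [chi_of (fun h1 => h.prime.not_isUnit (isUnit_of_dvd_one h1)), cs_one h.prime h.norm, ez_zero]

lemma chi_per {π a b : Ei} (h : Pq π) (hab : π ∣ a - b) : chi π a = chi π b := by
  by_cases h1 : π ∣ a
  · have h2 : π ∣ b := by
      have := dvd_sub h1 hab
      rwa [sub_sub_cancel] at this
    rw [chi_zero_iff.2 h1, chi_zero_iff.2 h2]
  · have h2 : ¬ π ∣ b := by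
      intro h2
      apply h1
      have := dvd_add h2 hab
      rwa [add_sub_cancel] at this
    rw [chi_of h1, chi_of h2, cs_congr h.prime h.norm h1 hab]

lemma chi_norm (π a : Ei) : ‖chi π a‖ ≤ 1 := by
  unfold chi
  split_ifs
  · simp
  · rw [norm_ez]

lemma chi_rec {π ρ : Ei} (h : Pq π) (h' : Pq ρ) : chi π ρ = chi ρ π := by
  by_cases he : π = ρ
  · rw [he]
  · have h1 : ¬ π ∣ ρ := fun hd => he (eq_of_dvd h h' hd)
    have h2 : ¬ ρ ∣ π := fun hd => he (eq_of_dvd h' h hd).symm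
    rw [chi_of h1, chi_of h2, rec_all π ρ h h' h2]

/-- the composite symbol -/
noncomputable def jac (n a : Ei) : ℂ := ∏ π ∈ PD n, chi π a

lemma jac_one_left (a : Ei) : jac 1 a = 1 := by unfold jac; rw [PD_one]; simp

lemma jac_prime {π : Ei} (h : Pq π) (a : Ei) : jac π a = chi π a := by
  unfold jac; rw [PD_prime h]; simp

lemma jac_mul_right {n : Ei} (hn : n ≠ 0) (a b : Ei) : jac n (a * b) = jac n a * jac n b := by
  unfold jac
  rw [← Finset.prod_mul_distrib]
  exact Finset.prod_congr rfl fun π hπ => chi_mul ((mem_PD hn).1 hπ).1 _ _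

lemma jac_one_right {n : Ei} (hn : n ≠ 0) : jac n 1 = 1 := by
  unfold jac
  exact Finset.prod_eq_one fun π hπ => chi_one ((mem_PD hn).1 hπ).1

lemma jac_mul_left {m n : Ei} (hm : m ≠ 0) (hn : n ≠ 0) (h : IsCoprime m n) (a : Ei) :
    jac (m * n) a = jac m a * jac n a := by
  classical
  unfold jac
  rw [PD_mul hm hn, Finset.prod_union (PD_disj hm hn h)]

lemma jac_prod {n : Ei} (hn : n ≠ 0) {κ : Type*} (s : Finset κ) (f : κ → Ei) :
    jac n (∏ i ∈ s, f i) = ∏ i ∈ s, jac n (f i) := by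
  classical
  induction s using Finset.induction_on with
  | empty => rw [Finset.prod_empty, Finset.prod_empty, jac_one_right hn]
  | insert a s ha ih => rw [Finset.prod_insert ha, Finset.prod_insert ha, jac_mul_right hn, ih]

/-- reciprocity -/
theorem jac_rec {m n : Ei} (hm : PS m) (hn : PS n) : jac m n = jac n m := by
  have h1 : jac m n = ∏ π ∈ PD m, ∏ ρ ∈ PD n, chi π ρ := by
    unfold jac
    refine Finset.prod_congr rfl fun π hπ => ?_
    have hπ' := ((mem_PD hm.ne).1 hπ).1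
    have h2 := jac_prod (pq_ne hπ') (PD n) (fun ρ => ρ)
    rw [hn.prod, jac_prime hπ'] at h2
    rw [h2]
    exact Finset.prod_congr rfl fun ρ _ => jac_prime hπ' ρ
  have h2 : jac n m = ∏ ρ ∈ PD n, ∏ π ∈ PD m, chi ρ π := by
    unfold jac
    refine Finset.prod_congr rfl fun π hπ => ?_
    have hπ' := ((mem_PD hn.ne).1 hπ).1
    have h2 := jac_prod (pq_ne hπ') (PD m) (fun ρ => ρ)
    rw [hm.prod, jac_prime hπ'] at h2
    rw [h2]
    exact Finset.prod_congr rfl fun ρ _ => jac_prime hπ' ρ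
  rw [h1, h2, Finset.prod_comm]
  refine Finset.prod_congr rfl fun ρ hρ => Finset.prod_congr rfl fun π hπ => ?_
  exact chi_rec ((mem_PD hm.ne).1 hπ).1 ((mem_PD hn.ne).1 hρ).1

lemma jac_per {n a b : Ei} (hn : n ≠ 0) (h : n ∣ a - b) : jac n a = jac n b :=
  Finset.prod_congr rfl fun _ hπ => chi_per ((mem_PD hn).1 hπ).1 (((mem_PD hn).1 hπ).2.trans h)

lemma jac_norm (n a : Ei) : ‖jac n a‖ ≤ 1 := by
  unfold jac
  rw [norm_prod]
  exact prod_le_one (fun _ _ => norm_nonneg _) fun _ _ => chi_norm _ _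

lemma jac_ne_zero {n a : Ei} (hn : PS n) (h : IsCoprime n a) : jac n a ≠ 0 := by
  unfold jac
  rw [Finset.prod_ne_zero_iff]
  intro π hπ h0
  have h1 := (mem_PD hn.ne).1 hπ
  exact h1.1.prime.not_isUnit (h.isUnit_of_dvd' h1.2 (chi_zero_iff.1 h0))

lemma jac_cop {n a : Ei} (hn : PS n) (h : jac n a ≠ 0) : IsCoprime n a := by
  have h3 : ∏ π ∈ PD n, π = n := hn.prod
  rw [← h3, IsCoprime.prod_left_iff]
  intro π hπ
  have hπP := ((mem_PD hn.ne).1 hπ).1
  rw [hπP.prime.irreducible.coprime_iff_not_dvd]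
  intro hd
  exact h (prod_eq_zero hπ (chi_zero_iff.2 hd))

/-- a cubic nonresidue -/
lemma exists_nonres {π : Ei} (h : Pq π) : ∃ b : Ei, ¬ π ∣ b ∧ cs π b ≠ 0 := by
  classical
  letI := Pool.Agent.Y715.T.Rec.fld h.prime
  letI := Pool.Agent.Y715.T.Rec.ftp h.prime
  have h3 := Pool.Agent.Y715.T.RecG.mk_three h.norm
  have hne := Pool.Agent.Y715.T.Cub.chi_ne_one (Pool.Agent.Y715.T.Rec.mw π) h3
  by_contra hcon
  push Not at hcon
  apply hne
  refine MulChar.ext fun u => ?_
  obtain ⟨x, hx⟩ := Ideal.Quotient.mk_surjective (u : Pool.Agent.Y715.T.Rec.FF π)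
  have hx0 : ¬ π ∣ x := by
    intro hd
    have : Pool.Agent.Y715.T.Rec.mk π x = 0 := (mk_eq_zero x).2 hd
    rw [hx] at this
    exact u.ne_zero this
  have h4 := Pool.Agent.Y715.T.RecG.cs_chi h.prime h.norm hx0
  rw [← hx]
  rw [hcon x hx0] at h4
  rw [MulChar.one_apply (by rw [hx]; exact u.isUnit)]
  rw [ZMod.val_zero, pow_zero] at h4
  exact h4

end Pool.Agent.Y699.E
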